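import Mathlib

set_option autoImplicit false

namespace Pool.Agent.Results.MP_69ced1_co.BipartiteFactorization

/-- `S` is a total dominating set of `G`: every vertex has a neighbour in `S`. -/
def IsTotalDominating {V : Type*} (G : SimpleGraph V) (S : Finset V) : Prop :=
  ∀ v : V, ∃ u ∈ S, G.Adj v u

/-- The total domination number: the minimum size of a total dominating set. -/
noncomputable def gammaT {V : Type*} (G : SimpleGraph V) : ℕ :=
  sInf {k | ∃ S : Finset V, IsTotalDominating G S ∧ S.card = k}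

/-- The bipartite graph on `Fin s ⊕ Fin s` with `inl i ~ inr j` iff `R i j`. -/
def bip {s : ℕ} (R : Fin s → Fin s → Prop) : SimpleGraph (Fin s ⊕ Fin s) where
  Adj
    | .inl i, .inr j => R i j
    | .inr j, .inl i => R i j
    | _, _ => False
  symm := ⟨by rintro (i | i) (j | j) h <;> exact h⟩
  loopless := ⟨by rintro (i | i) h <;> exact h⟩

/-- The relation of the first factor. -/
def R₁ (s m : ℕ) (i j : Fin s) : Prop := (j.val < m ∧ i ≠ j) ∨ (m ≤ j.val ∧ i = j)

/-- A total dominating set of `bip R` contains `inl j` for each `j` in `J` (when `inr j` has the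
only neighbour `inl j`), and two further vertices on the right (when no vertex on the right is
adjacent to all vertices on the left). -/
theorem card_lower {s : ℕ} (hs : 1 ≤ s) (R : Fin s → Fin s → Prop) (J : Finset (Fin s))
    (hJ : ∀ j ∈ J, ∀ i, R i j → i = j) (hR : ∀ j, ∃ i, ¬ R i j)
    (S : Finset (Fin s ⊕ Fin s)) (hS : IsTotalDominating (bip R) S) : J.card + 2 ≤ S.card := by
  classical
  -- two vertices on the right
  obtain ⟨u, hu, hadj⟩ := hS (.inl ⟨0, hs⟩)
  rcases u with u | j₁
  · exact absurd hadj (by simp [bip])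
  obtain ⟨i, hi⟩ := hR j₁
  obtain ⟨u, hu', hadj'⟩ := hS (.inl i)
  rcases u with u | j₂
  · exact absurd hadj' (by simp [bip])
  have hne : j₁ ≠ j₂ := by
    rintro rfl
    exact hi hadj'
  have hsub : J.image Sum.inl ∪ {Sum.inr j₁, Sum.inr j₂} ⊆ S := by
    intro x hx
    rcases Finset.mem_union.mp hx with hx | hx
    · obtain ⟨j, hj, rfl⟩ := Finset.mem_image.mp hx
      obtain ⟨v, hv, hvadj⟩ := hS (.inr j)
      rcases v with i' | j'
      · have : i' = j := hJ j hj i' hvadj
        rw [← this]; exact hv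
      · exact absurd hvadj (by simp [bip])
    · rcases Finset.mem_insert.mp hx with rfl | hx
      · exact hu
      · rw [Finset.mem_singleton.mp hx]; exact hu'
  have hcard : (J.image (Sum.inl : Fin s → Fin s ⊕ Fin s) ∪ {Sum.inr j₁, Sum.inr j₂}).card =
      J.card + 2 := by
    rw [Finset.card_union_of_disjoint, Finset.card_image_of_injective _ Sum.inl_injective,
      Finset.card_pair (fun h => hne (Sum.inr_injective h))]
    rw [Finset.disjoint_left]
    intro x hx hx'
    obtain ⟨j, _, rfl⟩ := Finset.mem_image.mp hx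
    simp at hx'
  rw [← hcard]
  exact Finset.card_le_card hsub

theorem gammaT_lower {s : ℕ} (hs : 1 ≤ s) (R : Fin s → Fin s → Prop) (J : Finset (Fin s))
    (hJ : ∀ j ∈ J, ∀ i, R i j → i = j) (hR : ∀ j, ∃ i, ¬ R i j)
    (hiso : ∀ v, ∃ w, (bip R).Adj v w) : J.card + 2 ≤ gammaT (bip R) := by
  refine le_csInf ⟨_, Finset.univ, fun v => ?_, rfl⟩ ?_
  · obtain ⟨w, hw⟩ := hiso v
    exact ⟨w, Finset.mem_univ _, hw⟩
  · rintro k ⟨S, hS, rfl⟩
    exact card_lower hs R J hJ hR S hS

theorem card_lt (s m : ℕ) (hm : m ≤ s) :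
    (Finset.univ.filter fun j : Fin s => j.val < m).card = m := by
  have : (Finset.univ.filter fun j : Fin s => j.val < m) =
      (Finset.univ : Finset (Fin m)).map (Fin.castLEEmb hm) := by
    ext j
    simp only [Finset.mem_filter, Finset.mem_univ, true_and, Finset.mem_map, Fin.castLEEmb_apply]
    constructor
    · intro h; exact ⟨⟨j.val, h⟩, rfl⟩
    · rintro ⟨i, rfl⟩; exact i.isLt
  rw [this, Finset.card_map, Finset.card_univ, Fintype.card_fin]

theorem card_ge (s m : ℕ) (hm : m ≤ s) :
    (Finset.univ.filter fun j : Fin s => m ≤ j.val).card = s - m := by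
  have h := Finset.card_filter_add_card_filter_not (s := (Finset.univ : Finset (Fin s)))
    (fun j : Fin s => j.val < m)
  rw [card_lt s m hm, Finset.card_univ, Fintype.card_fin] at h
  have h2 : (Finset.univ.filter fun j : Fin s => ¬ j.val < m) =
      (Finset.univ.filter fun j : Fin s => m ≤ j.val) := by
    ext j; simp
  rw [h2] at h
  omega

theorem main (s m : ℕ) (hm : 2 ≤ m) (hs : m + 2 ≤ s) :
    ∃ G₁ G₂ : SimpleGraph (Fin s ⊕ Fin s),
      Disjoint G₁ G₂ ∧ G₁ ⊔ G₂ = completeBipartiteGraph (Fin s) (Fin s) ∧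
      (∀ v, ∃ w, G₁.Adj v w) ∧ (∀ v, ∃ w, G₂.Adj v w) ∧
      s - m + 2 ≤ gammaT G₁ ∧ m + 2 ≤ gammaT G₂ := by
  have hiso₁ : ∀ v, ∃ w, (bip (R₁ s m)).Adj v w := by
    rintro (i | j)
    · by_cases hi : i.val = 0
      · refine ⟨.inr ⟨1, by omega⟩, Or.inl ⟨by simp; omega, ?_⟩⟩
        intro h; have := congrArg Fin.val h; simp at this; omega
      · refine ⟨.inr ⟨0, by omega⟩, Or.inl ⟨by simp; omega, ?_⟩⟩
        intro h; have := congrArg Fin.val h; simp at this; omega
    · by_cases hj : j.val < m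
      · by_cases hj0 : j.val = 0
        · refine ⟨.inl ⟨1, by omega⟩, Or.inl ⟨hj, ?_⟩⟩
          intro h; have := congrArg Fin.val h; simp at this; omega
        · refine ⟨.inl ⟨0, by omega⟩, Or.inl ⟨hj, ?_⟩⟩
          intro h; have := congrArg Fin.val h; simp at this; omega
      · exact ⟨.inl j, Or.inr ⟨by omega, rfl⟩⟩
  have hiso₂ : ∀ v, ∃ w, (bip fun i j => ¬ R₁ s m i j).Adj v w := by
    rintro (i | j)
    · by_cases hi : i.val < m
      · refine ⟨.inr i, ?_⟩
        change ¬ ((i.val < m ∧ i ≠ i) ∨ (m ≤ i.val ∧ i = i))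
        simp; omega
      · by_cases him : i.val = m
        · refine ⟨.inr ⟨m + 1, by omega⟩, ?_⟩
          change ¬ ((m + 1 < m ∧ _) ∨ (m ≤ m + 1 ∧ i = _))
          rintro (h | ⟨_, h⟩)
          · omega
          · rw [h] at him; simp at him
        · refine ⟨.inr ⟨m, by omega⟩, ?_⟩
          change ¬ ((m < m ∧ _) ∨ (m ≤ m ∧ i = _))
          rintro (h | ⟨_, h⟩)
          · omega
          · rw [h] at him; simp at him
    · by_cases hj : j.val < m
      · refine ⟨.inl j, ?_⟩
        change ¬ ((j.val < m ∧ j ≠ j) ∨ (m ≤ j.val ∧ j = j))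
        simp; omega
      · refine ⟨.inl ⟨0, by omega⟩, ?_⟩
        change ¬ ((j.val < m ∧ _) ∨ (m ≤ j.val ∧ _ = j))
        rintro (h | ⟨_, h⟩)
        · omega
        · rw [← h] at hj; simp at hj; omega
  refine ⟨bip (R₁ s m), bip fun i j => ¬ R₁ s m i j, ?_, ?_, hiso₁, hiso₂, ?_, ?_⟩
  · rw [SimpleGraph.disjoint_left]
    rintro (i | i) (j | j) h h'
    · exact h
    · exact h' h
    · exact h' h
    · exact h
  · ext a b
    rcases a with i | i <;> rcases b with j | j <;>
      simp [bip, Classical.em]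
  · have := gammaT_lower (by omega) (R₁ s m) (Finset.univ.filter fun j : Fin s => m ≤ j.val)
      ?_ ?_ hiso₁
    · rwa [card_ge s m (by omega)] at this
    · intro j hj i hij
      have hj' : m ≤ j.val := by simpa using hj
      rcases hij with ⟨h, _⟩ | ⟨_, h⟩
      · omega
      · exact h
    · intro j
      by_cases hj : j.val < m
      · exact ⟨j, by rintro (⟨_, h⟩ | ⟨h, _⟩) <;> [exact h rfl; omega]⟩
      · refine ⟨⟨0, by omega⟩, ?_⟩
        rintro (⟨h, _⟩ | ⟨_, h⟩)
        · omega
        · rw [← h] at hj; simp at hj; omega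
  · have := gammaT_lower (by omega) (fun i j => ¬ R₁ s m i j)
      (Finset.univ.filter fun j : Fin s => j.val < m) ?_ ?_ hiso₂
    · rwa [card_lt s m (by omega)] at this
    · intro j hj i hij
      have hj' : j.val < m := by simpa using hj
      by_contra hne
      exact hij (Or.inl ⟨hj', hne⟩)
    · intro j
      by_cases hj : j.val < m
      · by_cases hj0 : j.val = 0
        · refine ⟨⟨1, by omega⟩, ?_⟩
          rw [not_not]
          refine Or.inl ⟨hj, ?_⟩
          intro h; have := congrArg Fin.val h; simp at this; omega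
        · refine ⟨⟨0, by omega⟩, ?_⟩
          rw [not_not]
          refine Or.inl ⟨hj, ?_⟩
          intro h; have := congrArg Fin.val h; simp at this; omega
      · exact ⟨j, by rw [not_not]; exact Or.inr ⟨by omega, rfl⟩⟩

/-- **The bound `γ_t(G₁) γ_t(G₂) ≤ 8s` for factorizations `G₁ ⊕ G₂ = K(s,s)` fails for every
`s ≥ 24`**: there is a factorization without isolated vertices for which the product is at least
`⌊(s+4)²/4⌋`, and this is larger than `8s`. -/
theorem result : ∀ s : ℕ, 24 ≤ s →
    ∃ G₁ G₂ : SimpleGraph (Fin s ⊕ Fin s),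
      Disjoint G₁ G₂ ∧ G₁ ⊔ G₂ = completeBipartiteGraph (Fin s) (Fin s) ∧
      (∀ v, ∃ w, G₁.Adj v w) ∧ (∀ v, ∃ w, G₂.Adj v w) ∧
      (s + 4) ^ 2 / 4 ≤ gammaT G₁ * gammaT G₂ ∧ 8 * s < gammaT G₁ * gammaT G₂ := by
  intro s hs
  obtain ⟨G₁, G₂, h1, h2, h3, h4, h5, h6⟩ := main s (s / 2) (by omega) (by omega)
  have h7 : (s - s / 2 + 2) * (s / 2 + 2) ≤ gammaT G₁ * gammaT G₂ := Nat.mul_le_mul h5 h6
  refine ⟨G₁, G₂, h1, h2, h3, h4, le_trans ?_ h7, lt_of_lt_of_le ?_ h7⟩
  · rcases Nat.even_or_odd' s with ⟨m, rfl | rfl⟩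
    · have e : 2 * m / 2 = m := by omega
      rw [e, Nat.div_le_iff_le_mul_add_pred (by norm_num)]
      have : 2 * m - m = m := by omega
      rw [this]
      nlinarith
    · have e : (2 * m + 1) / 2 = m := by omega
      rw [e, Nat.div_le_iff_le_mul_add_pred (by norm_num)]
      have : 2 * m + 1 - m = m + 1 := by omega
      rw [this]
      nlinarith
  · rcases Nat.even_or_odd' s with ⟨m, rfl | rfl⟩
    · have e : 2 * m / 2 = m := by omega
      have : 2 * m - m = m := by omega
      rw [e, this]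
      have hm : 12 ≤ m := by omega
      nlinarith
    · have e : (2 * m + 1) / 2 = m := by omega
      have : 2 * m + 1 - m = m + 1 := by omega
      rw [e, this]
      have hm : 12 ≤ m := by omega
      nlinarith

end Pool.Agent.Results.MP_69ced1_co.BipartiteFactorization
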